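import Pool.Agent.TTP.Brp

/-!
# Sentences of `L_{ω₁,ω}` with primary extensions
-/

set_option autoImplicit false

open Cardinal Ordinal FirstOrder FirstOrder.Language Pool.Agent.MP_ec9ef7_lc.UT

namespace Pool.Agent.TTP

open Pool.Agent.TTC Pool.Agent.TTD

variable {L : FirstOrder.Language.{0, 0}}

theorem final [Countable (Σ l, L.Functions l)] [Countable (Σ k, L.Relations k)] {ψ : Fml L 0}
    {Φ : Set (Σ n, Fml L n)} (hΦ : Φ.Countable) (hψ : Fragment Φ ψ) {μ : Cardinal.{0}}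
    (hμ : (ℶ_ ω₁ : Cardinal.{0}) ≤ μ) (hcf : ℵ₀ < μ.ord.cof) (hcat : Categorical ψ μ)
    {M0 : Type} [L.Structure M0] (hM0 : Models ψ M0) (hM0c : #M0 = μ)
    (hT : PrimaryExtensions Φ M0) {κ : Cardinal.{0}} (hκ : (ℶ_ ω₁ : Cardinal.{0}) ≤ κ)
    (h : κ ≤ μ ∨ ∃ (N : Type) (_ : L.Structure N), #N = κ ∧ Models ψ N ∧
      PrimaryExtensions Φ N) : Categorical ψ κ := by
  obtain ⟨_, _⟩ := countable_L0 Φ hΦ
  have := countable_FL (L0 Φ)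
  have hq := qfp_AxP Φ hΦ ψ
  have hpos : ∀ {T : Type} {lam : Cardinal.{0}}, (ℶ_ ω₁ : Cardinal.{0}) ≤ lam → #T = lam →
      Nonempty T := fun {T lam} h1 h2 => mk_ne_zero_iff.1 (by
    rw [h2]
    exact (aleph0_pos.trans_le ((aleph0_le_beth ω₁).trans h1)).ne')
  have h1 : (clsΦ Φ ψ hq).Cat μ := by
    intro M N SM SN hM hN hMc hNc
    obtain ⟨hM1, hM2⟩ := (clsΦ_K Φ M).1 hM
    obtain ⟨hN1, hN2⟩ := (clsΦ_K Φ N).1 hN
    obtain ⟨TM, hTM, hM3⟩ := exists_model Φ hψ M hM1 hM2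
    obtain ⟨TN, hTN, hN3⟩ := exists_model Φ hψ N hN1 hN2
    obtain ⟨f⟩ := hcat.2 M N TM TN hMc hNc hTM hTN
    refine ⟨f.toEquiv, fun n R v => ?_⟩
    rw [hM3, hN3]
    exact isIso_canon Φ M N f n R v
  have := hpos hμ hM0c
  have hM0' : @Cls.K _ (clsΦ Φ ψ hq) M0 (canon Φ M0) := canon_mem Φ hq M0 hM0
  obtain ⟨⟨N, SN, hN, hNc⟩, h2⟩ := @mainP _ (clsΦ Φ ψ hq) _ μ hμ hcf h1 M0 (canon Φ M0) hM0'
    hM0c (pa_of Φ M0 hT) κ hκ (by
      rcases h with h | ⟨N, SN, hNc, hN, hNP⟩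
      · exact Or.inl h
      · have := hpos hκ hNc
        exact Or.inr ⟨N, canon Φ N, canon_mem Φ hq N hN, hNc, pa_of Φ N hNP⟩)
  constructor
  · obtain ⟨hN1, hN2⟩ := (clsΦ_K Φ N).1 hN
    obtain ⟨TN, hTN, -⟩ := exists_model Φ hψ N hN1 hN2
    exact ⟨N, TN, hNc, hTN⟩
  · intro M N TM TN hMc hNc hM hN
    have := hpos hκ hMc
    have := hpos hκ hNc
    obtain ⟨f, hf⟩ := @h2 M N (canon Φ M) (canon Φ N) (canon_mem Φ hq M hM)
      (canon_mem Φ hq N hN) hMc hNc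
    exact exists_isoL Φ M N f hf

end Pool.Agent.TTP
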